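import Pool.Agent.P.MP_114da7_co.ClMain

set_option autoImplicit false

namespace Pool.Agent.Results.MP_114da7_co.Clusters

open Pool.Agent.P.MP_114da7_co

/-- Separated clusters of occurrences of a consecutive pattern contribute independent factors, with
an exponentially small relative error that is uniform in the shape of the clusters. -/
theorem result :
    ∀ k : ℕ, 3 ≤ k → ∀ π : Equiv.Perm (Fin k),
      ∃ (c : Finset ℕ → ℝ) (g0 : ℕ) (K ρ : ℝ), 0 ≤ K ∧ 0 < ρ ∧ ρ < 1 ∧ (∀ J, 0 ≤ c J) ∧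
        (∀ J t, c (J.image (· + t)) = c J) ∧ (∀ x, 0 < c {x}) ∧
        ∀ (n g r : ℕ) (J : Fin r → Finset ℕ), g0 ≤ g → (∀ a, (J a).Nonempty) →
          (∀ a, ∀ x ∈ J a, g ≤ x ∧ x + g ≤ n) →
          (∀ a b, a < b → ∀ x ∈ J a, ∀ y ∈ J b, x + g ≤ y) →
          (count π (Finset.univ.biUnion J) n : ℝ) ≤
              (1 + K * ρ ^ g) ^ r * (∏ a, c (J a)) * (count π ∅ n : ℝ) ∧
            (∏ a, c (J a)) * (count π ∅ n : ℝ) ≤
              (1 + K * ρ ^ g) ^ r * (count π (Finset.univ.biUnion J) n : ℝ) :=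
  fun k hk π => cl_main k hk π

end Pool.Agent.Results.MP_114da7_co.Clusters
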