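import Pool.Agent.P.MP_114da7_co.Main

set_option autoImplicit false

namespace Pool.Agent.Results.MP_114da7_co.Equidistribution

open Pool.Agent.P.MP_114da7_co

/-- Well separated position sets of a consecutive pattern are asymptotically equally likely. -/
theorem result :
    ∀ k : ℕ, 3 ≤ k → ∀ π : Equiv.Perm (Fin k), ∀ a : ℕ, 1 ≤ a →
      ∃ C α K : ℝ, 0 < C ∧ 0 < α ∧
        ∀ n : ℕ, 1 ≤ n → ∀ I : Finset ℕ, I ⊆ Finset.Icc 1 n → I.card = a →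
          (∀ i ∈ I, (∀ j ∈ I, i ≤ j) → Real.sqrt n ≤ (i : ℝ)) →
          (∀ i ∈ I, ∀ j ∈ I, i < j → (∀ l ∈ I, l ≤ i ∨ j ≤ l) → Real.sqrt n ≤ (j : ℝ) - (i : ℝ)) →
          (∀ i ∈ I, (∀ j ∈ I, j ≤ i) → Real.sqrt n ≤ (n : ℝ) - (i : ℝ)) →
          |(count π I n : ℝ) - C * (count π ∅ n : ℝ)| ≤
            K * (n : ℝ) ^ (-α) * C * (count π ∅ n : ℝ) := by
  intro k hk π a _
  obtain ⟨C, K, hC, h⟩ := main k hk π a
  refine ⟨C, 1 / 2, K, hC, by norm_num, fun n hn I _ hcard h1 h2 h3 => ?_⟩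
  obtain ⟨p1, p2⟩ := sep_all h1 h2 h3
  exact h n hn I hcard p1 p2

end Pool.Agent.Results.MP_114da7_co.Equidistribution
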